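import Pool.Agent.K1H16.TS.Stm

/-!
# Lower bound: explicit conflict-free sets (task 36)
-/

set_option linter.unusedVariables false
set_option linter.unusedSimpArgs false

open scoped Classical

namespace Pool.Agent.K1H33.TSL

open K1H16.TS

/-- all quadruples of a box -/
noncomputable def box (n m : ℤ) : Finset Pr :=
  ((Finset.Icc (0:ℤ) n ×ˢ Finset.Icc (0:ℤ) m) ×ˢ (Finset.Icc (0:ℤ) n ×ˢ Finset.Icc (0:ℤ) m)).image
    (fun p => (⟨p.1.1, p.1.2, p.2.1, p.2.2⟩ : Pr))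

theorem mem_box {n m : ℤ} {u : Pr} : u ∈ box n m ↔
    (0 ≤ u.a ∧ u.a ≤ n) ∧ (0 ≤ u.x ∧ u.x ≤ m) ∧ (0 ≤ u.b ∧ u.b ≤ n) ∧ (0 ≤ u.y ∧ u.y ≤ m) := by
  unfold box
  simp only [Finset.mem_image, Finset.mem_product, Finset.mem_Icc]
  constructor
  · rintro ⟨⟨⟨a, x⟩, ⟨b, y⟩⟩, ⟨⟨h1, h2⟩, h3, h4⟩, rfl⟩
    exact ⟨h1, h2, h3, h4⟩
  · rintro ⟨h1, h2, h3, h4⟩
    exact ⟨((u.a, u.x), (u.b, u.y)), ⟨⟨h1, h2⟩, h3, h4⟩, rfl⟩

/-- elements of level `N` -/
noncomputable def Lev (n m N : ℤ) : Finset Pr :=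
  (box n m).filter (fun u => u.a ≤ u.b ∧ u.x ≤ u.y ∧ u.a + u.b + u.x + u.y = N)

theorem mem_Lev {n m N : ℤ} {u : Pr} : u ∈ Lev n m N ↔
    0 ≤ u.a ∧ u.a ≤ u.b ∧ u.b ≤ n ∧ 0 ≤ u.x ∧ u.x ≤ u.y ∧ u.y ≤ m ∧
      u.a + u.b + u.x + u.y = N := by
  unfold Lev
  rw [Finset.mem_filter, mem_box]
  constructor
  · rintro ⟨h1, h2⟩; omega
  · rintro h; omega

theorem Lev_Ind (n m N : ℤ) : Ind (Lev n m N) := by
  intro u hu v hv h
  rw [mem_Lev] at hu hv
  obtain ⟨h1, h2, h3, h4, h5⟩ := h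
  ext <;> omega

theorem Lev_Gr {n m N : ℤ} (hN : N % 2 = 1) : ∀ u ∈ Lev n m N, Gr n m u := by
  intro u hu
  rw [mem_Lev] at hu
  unfold Gr Pr.Ok
  omega

/-- number of intervals `[a,b]` of the line, length `n`, with `a+b = n+t` -/
def c (n t : ℤ) : ℤ := (n + t) / 2 - max 0 t + 1

/-- sum over an antidiagonal -/
def G (n d : ℤ) (j : ℕ) : ℤ := ∑ x ∈ Finset.range (j + 1), c n (j - 2 * x - d)

/-- total -/
def L (n d : ℤ) (m : ℕ) : ℤ := ∑ j ∈ Finset.range (m + 1), G n d j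

theorem c_nonneg {n t : ℤ} (h : |t| ≤ n + 1) : 0 ≤ c n t := by
  unfold c
  rw [abs_le] at h
  rcases le_total 0 t with h1 | h1
  · rw [max_eq_right h1]; omega
  · rw [max_eq_left h1]; omega

theorem G_step (n d : ℤ) (j : ℕ) :
    G n d (j + 2) = G n d j + c n (j + 2 - d) + c n (-(j + 2) - d) := by
  unfold G
  rw [Finset.sum_range_succ, Finset.sum_range_succ']
  have h1 : ∀ x ∈ Finset.range (j + 1), c n (((j + 2 : ℕ) : ℤ) - 2 * ((x + 1 : ℕ) : ℤ) - d) =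
      c n (j - 2 * x - d) := by
    intro x _
    congr 1
    push_cast
    ring
  rw [Finset.sum_congr rfl h1]
  have h2 : ((j + 2 : ℕ) : ℤ) - 2 * ((0 : ℕ) : ℤ) - d = j + 2 - d := by push_cast; ring
  have h3 : ((j + 2 : ℕ) : ℤ) - 2 * ((j + 2 : ℕ) : ℤ) - d = -(j + 2) - d := by push_cast; ring
  rw [h2, h3]

theorem G_zero (n d : ℤ) : G n d 0 = c n (-d) := by
  unfold G
  simp

theorem G_one (n d : ℤ) : G n d 1 = c n (1 - d) + c n (-1 - d) := by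
  unfold G
  rw [Finset.sum_range_succ, Finset.sum_range_succ, Finset.sum_range_zero]
  norm_num

theorem c_pos {n t : ℤ} (h : 0 ≤ t) : c n t = (n + t) / 2 - t + 1 := by
  unfold c; rw [max_eq_right h]

theorem c_neg {n t : ℤ} (h : t ≤ 0) : c n t = (n + t) / 2 + 1 := by
  unfold c; rw [max_eq_left h]; ring

/-- `G` for `d = 0`, `j` even -/
theorem G0e (n : ℤ) (q : ℕ) :
    G n 0 (2 * q) = (2 * q + 1) * (n / 2 + 1) - q * (q + 1) := by
  induction q with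
  | zero =>
    rw [show 2 * 0 = 0 from rfl, G_zero, c_neg (by norm_num)]
    simp
  | succ q ih =>
    rw [show 2 * (q + 1) = 2 * q + 2 by ring, G_step, ih, c_pos (by push_cast; omega),
      c_neg (by push_cast; omega)]
    have h1 : (n + (((2 * q : ℕ) : ℤ) + 2 - 0)) / 2 = n / 2 + q + 1 := by push_cast; omega
    have h2 : (n + (-(((2 * q : ℕ) : ℤ) + 2) - 0)) / 2 = n / 2 - q - 1 := by push_cast; omega
    rw [h1, h2]
    push_cast
    ring

/-- `G` for `d = 0`, `j` odd -/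
theorem G0o (n : ℤ) (q : ℕ) :
    G n 0 (2 * q + 1) = (2 * q + 2) * ((n + 1) / 2) - q * (q + 1) := by
  induction q with
  | zero =>
    rw [show 2 * 0 + 1 = 1 from rfl, G_one, c_pos (by norm_num), c_neg (by norm_num)]
    have h1 : (n + (-1 - 0)) / 2 = (n + 1) / 2 - 1 := by omega
    rw [h1]
    simp only [sub_zero]
    push_cast
    ring
  | succ q ih =>
    rw [show 2 * (q + 1) + 1 = (2 * q + 1) + 2 by ring, G_step, ih, c_pos (by push_cast; omega),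
      c_neg (by push_cast; omega)]
    have h1 : (n + (((2 * q + 1 : ℕ) : ℤ) + 2 - 0)) / 2 = (n + 1) / 2 + q + 1 := by
      push_cast; omega
    have h2 : (n + (-(((2 * q + 1: ℕ) : ℤ) + 2) - 0)) / 2 = (n + 1) / 2 - q - 2 := by
      push_cast; omega
    rw [h1, h2]
    push_cast
    ring

/-- `G` for `d = 1`, `j` even -/
theorem G1e (n : ℤ) (q : ℕ) :
    G n 1 (2 * q) = (2 * q + 1) * ((n + 1) / 2) - q * q := by
  induction q with
  | zero =>
    rw [show 2 * 0 = 0 from rfl, G_zero, c_neg (by norm_num)]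
    simp only [Nat.cast_zero]
    omega
  | succ q ih =>
    rw [show 2 * (q + 1) = 2 * q + 2 by ring, G_step, ih, c_pos (by push_cast; omega),
      c_neg (by push_cast; omega)]
    have h1 : (n + (((2 * q : ℕ) : ℤ) + 2 - 1)) / 2 = (n + 1) / 2 + q := by push_cast; omega
    have h2 : (n + (-(((2 * q : ℕ) : ℤ) + 2) - 1)) / 2 = (n + 1) / 2 - q - 2 := by push_cast; omega
    rw [h1, h2]
    push_cast
    ring

/-- `G` for `d = 1`, `j` odd -/
theorem G1o (n : ℤ) (q : ℕ) :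
    G n 1 (2 * q + 1) = (2 * q + 2) * (n / 2 + 1) - (q + 1) * (q + 1) := by
  induction q with
  | zero =>
    rw [show 2 * 0 + 1 = 1 from rfl, G_one, c_pos (by norm_num), c_neg (by norm_num)]
    have h1 : (n + (-1 - 1)) / 2 = n / 2 - 1 := by omega
    rw [h1]
    simp only [sub_self, add_zero, sub_zero]
    push_cast
    ring
  | succ q ih =>
    rw [show 2 * (q + 1) + 1 = (2 * q + 1) + 2 by ring, G_step, ih, c_pos (by push_cast; omega),
      c_neg (by push_cast; omega)]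
    have h1 : (n + (((2 * q + 1 : ℕ) : ℤ) + 2 - 1)) / 2 = n / 2 + q + 1 := by
      push_cast; omega
    have h2 : (n + (-(((2 * q + 1: ℕ) : ℤ) + 2) - 1)) / 2 = n / 2 - q - 2 := by
      push_cast; omega
    rw [h1, h2]
    push_cast
    ring

theorem L_succ (n d : ℤ) (m : ℕ) : L n d (m + 1) = L n d m + G n d (m + 1) := by
  unfold L
  rw [Finset.sum_range_succ]

theorem L_zero (n d : ℤ) : L n d 0 = G n d 0 := by
  unfold L
  simp

/-- two-step formulas, for general `n`, with `e = n/2+1`, `f = (n+1)/2` -/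
theorem L0 (n : ℤ) (q : ℕ) :
    3 * L n 0 (2 * q) = 3 * (q + 1) ^ 2 * (n / 2 + 1) + 3 * q * (q + 1) * ((n + 1) / 2)
        - q * (q + 1) * (q + 2) - q * (q + 1) * (q - 1) ∧
    3 * L n 0 (2 * q + 1) = 3 * (q + 1) ^ 2 * (n / 2 + 1) + 3 * (q + 1) * (q + 2) * ((n + 1) / 2)
        - 2 * q * (q + 1) * (q + 2) := by
  induction q with
  | zero =>
    have h0 := G0e n 0
    have h1 := G0o n 0
    have h2 := L_succ n 0 0
    have h3 := L_zero n 0
    norm_num at *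
    rw [h2, h3, h1, h0]
    constructor <;> ring
  | succ q ih =>
    obtain ⟨i1, i2⟩ := ih
    have h0 := G0e n (q + 1)
    have h1 := G0o n (q + 1)
    have h2 := L_succ n 0 (2 * q + 1)
    have h3 := L_succ n 0 (2 * (q + 1))
    rw [show 2 * q + 1 + 1 = 2 * (q + 1) by ring] at h2
    rw [h0] at h2
    rw [h1, h2] at h3
    rw [h3, h2]
    constructor
    · rw [mul_add, i2]; push_cast; ring
    · rw [mul_add, mul_add, i2]; push_cast; ring

theorem L1 (n : ℤ) (q : ℕ) :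
    6 * L n 1 (2 * q) = 6 * (q + 1) ^ 2 * ((n + 1) / 2) + 6 * q * (q + 1) * (n / 2 + 1)
        - 2 * q * (q + 1) * (2 * q + 1) ∧
    6 * L n 1 (2 * q + 1) = 6 * (q + 1) ^ 2 * ((n + 1) / 2) + 6 * (q + 1) * (q + 2) * (n / 2 + 1)
        - 2 * q * (q + 1) * (2 * q + 1) - 6 * (q + 1) * (q + 1) := by
  induction q with
  | zero =>
    have h0 := G1e n 0
    have h1 := G1o n 0
    have h2 := L_succ n 1 0
    have h3 := L_zero n 1
    norm_num at *
    rw [h2, h3, h1, h0]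
    constructor <;> ring
  | succ q ih =>
    obtain ⟨i1, i2⟩ := ih
    have h0 := G1e n (q + 1)
    have h1 := G1o n (q + 1)
    have h2 := L_succ n 1 (2 * q + 1)
    have h3 := L_succ n 1 (2 * (q + 1))
    rw [show 2 * q + 1 + 1 = 2 * (q + 1) by ring] at h2
    rw [h0] at h2
    rw [h1, h2] at h3
    rw [h3, h2]
    constructor
    · rw [mul_add, i2]; push_cast; ring
    · rw [mul_add, mul_add, i2]; push_cast; ring

/-- counting the elements of `Lev` -/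
theorem L_le_card (n m : ℕ) (hm : m ≤ n) (d : ℤ) (hd : 0 ≤ d) (hd1 : d ≤ 1) :
    L n d m ≤ ((Lev n m (n + m - d)).card : ℤ) := by
  set Q : Finset (Σ _ : ℕ, Σ _ : ℕ, ℤ) := (Finset.range (m + 1)).sigma fun j =>
    (Finset.range (j + 1)).sigma fun x =>
      Finset.Icc (max 0 ((j:ℤ) - 2 * x - d)) (((n:ℤ) + ((j:ℤ) - 2 * x - d)) / 2) with hQ
  have hcard : (Q.card : ℤ) = L n d m := by
    rw [hQ, Finset.card_sigma]
    push_cast
    unfold L G
    refine Finset.sum_congr rfl fun j hj => ?_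
    rw [Finset.card_sigma]
    push_cast
    refine Finset.sum_congr rfl fun x hx => ?_
    rw [Int.card_Icc]
    rw [Finset.mem_range] at hj hx
    have h0 : 0 ≤ c n ((j:ℤ) - 2 * x - d) := by
      apply c_nonneg
      rw [abs_le]
      constructor <;> omega
    have h1 : ((n:ℤ) + ((j:ℤ) - 2 * x - d)) / 2 + 1 - max 0 ((j:ℤ) - 2 * x - d) =
        c n ((j:ℤ) - 2 * x - d) := by
      unfold c; ring
    rw [h1, Int.toNat_of_nonneg h0]
  rw [← hcard]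
  have hinj : Q.card ≤ (Lev n m (n + m - d)).card := by
    refine Finset.card_le_card_of_injOn
      (fun p => (⟨p.2.2, p.2.1, n + ((p.1:ℤ) - 2 * p.2.1 - d) - p.2.2, m - p.1 + p.2.1⟩ : Pr))
      ?_ ?_
    · rintro ⟨j, x, a⟩ hp
      rw [hQ] at hp
      simp only [Finset.coe_sigma, Set.mem_sigma_iff, Finset.mem_coe, Finset.mem_range,
        Finset.mem_sigma, Finset.mem_Icc, max_le_iff] at hp
      rw [Finset.mem_coe, mem_Lev]
      simp only
      omega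
    · rintro ⟨j, x, a⟩ hp ⟨j', x', a'⟩ hp' h
      simp only [Pr.mk.injEq] at h
      obtain ⟨h1, h2, h3, h4⟩ := h
      have e1 : x = x' := by exact_mod_cast h2
      subst e1
      have e2 : j = j' := by omega
      subst e2
      subst h1
      rfl
  exact_mod_cast hinj

theorem choose2 (m : ℕ) : 2 * ((m + 2).choose 2 : ℤ) = (m + 1) * (m + 2) := by
  induction m with
  | zero => norm_num
  | succ m ih =>
    rw [show m + 1 + 2 = (m + 2) + 1 by ring, Nat.choose_succ_succ, Nat.choose_one_right]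
    push_cast
    linarith

theorem choose3 (m : ℕ) : 6 * ((m + 3).choose 3 : ℤ) = (m + 1) * (m + 2) * (m + 3) := by
  induction m with
  | zero => norm_num
  | succ m ih =>
    rw [show m + 1 + 3 = (m + 3) + 1 by ring, Nat.choose_succ_succ]
    have := choose2 (m + 1)
    rw [show m + 1 + 2 = m + 3 by ring] at this
    push_cast at this ⊢
    linarith

theorem F_odd (n m : ℕ) (hm : m ≤ n) (h : (n + m) % 2 = 1) : (F n m : ℤ) = L n 0 m := by
  unfold F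
  rw [if_pos h]
  obtain ⟨k, hk⟩ : ∃ k, n = m + 1 + 2 * k := ⟨(n - m - 1) / 2, by omega⟩
  have e : (n - m - 1) / 2 = k := by omega
  rw [e]
  have c2 := choose2 m
  have c3 := choose3 m
  push_cast
  obtain ⟨q, hq | hq⟩ := Nat.even_or_odd' m
  · have h0 := (L0 n q).1
    have e1 : (n : ℤ) / 2 + 1 = q + k + 1 := by omega
    have e2 : ((n : ℤ) + 1) / 2 = q + k + 1 := by omega
    rw [e1, e2, ← hq] at h0
    have hq' : (m : ℤ) = 2 * q := by exact_mod_cast hq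
    have : 12 * ((k : ℤ) * ((m + 2).choose 2 : ℤ) + ((m + 3).choose 3 : ℤ)) = 12 * L n 0 m := by
      have : 12 * ((k : ℤ) * ((m + 2).choose 2 : ℤ) + ((m + 3).choose 3 : ℤ)) =
        6 * k * (2 * ((m + 2).choose 2 : ℤ)) + 2 * (6 * ((m + 3).choose 3 : ℤ)) := by ring
      rw [this, c2, c3, show (12:ℤ) * L n 0 m = 4 * (3 * L n 0 m) by ring, h0, hq']
      ring
    linarith
  · have h0 := (L0 n q).2
    have e1 : (n : ℤ) / 2 + 1 = q + k + 2 := by omega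
    have e2 : ((n : ℤ) + 1) / 2 = q + k + 1 := by omega
    rw [e1, e2, ← hq] at h0
    have hq' : (m : ℤ) = 2 * q + 1 := by exact_mod_cast hq
    have : 12 * ((k : ℤ) * ((m + 2).choose 2 : ℤ) + ((m + 3).choose 3 : ℤ)) = 12 * L n 0 m := by
      have : 12 * ((k : ℤ) * ((m + 2).choose 2 : ℤ) + ((m + 3).choose 3 : ℤ)) =
        6 * k * (2 * ((m + 2).choose 2 : ℤ)) + 2 * (6 * ((m + 3).choose 3 : ℤ)) := by ring
      rw [this, c2, c3, show (12:ℤ) * L n 0 m = 4 * (3 * L n 0 m) by ring, h0, hq']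
      ring
    linarith

theorem F_even (n m : ℕ) (hm : m ≤ n) (h : (n + m) % 2 = 0) (hm2 : m ≠ 2) :
    (F n m : ℤ) ≤ L n 1 m := by
  unfold F
  rw [if_neg (by omega), if_neg hm2]
  obtain ⟨k, hk⟩ : ∃ k, n = m + 2 * k := ⟨(n - m) / 2, by omega⟩
  have e : (n - m) / 2 = k := by omega
  rw [e]
  have c2 := choose2 m
  have c3 := choose3 m
  obtain ⟨q, hq | hq⟩ := Nat.even_or_odd' m
  · have h0 := (L1 n q).1
    have e1 : (n : ℤ) / 2 + 1 = q + k + 1 := by omega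
    have e2 : ((n : ℤ) + 1) / 2 = q + k := by omega
    rw [e1, e2, ← hq] at h0
    have hq' : (m : ℤ) = 2 * q := by exact_mod_cast hq
    have e3 : (m + 2) ^ 2 / 4 = (q + 1) ^ 2 := by
      rw [hq, show (2 * q + 2) ^ 2 = 4 * (q + 1) ^ 2 by ring]
      exact Nat.mul_div_cancel_left _ (by norm_num)
    have key : 12 * ((k : ℤ) * ((m + 2).choose 2 : ℤ) + ((m + 3).choose 3 : ℤ)) =
        12 * (L n 1 m + (q + 1) ^ 2) := by
      have : 12 * ((k : ℤ) * ((m + 2).choose 2 : ℤ) + ((m + 3).choose 3 : ℤ)) =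
        6 * k * (2 * ((m + 2).choose 2 : ℤ)) + 2 * (6 * ((m + 3).choose 3 : ℤ)) := by ring
      rw [this, c2, c3, show (12:ℤ) * (L n 1 m + (q + 1) ^ 2) =
        2 * (6 * L n 1 m) + 12 * (q + 1) ^ 2 by ring, h0, hq']
      ring
    rw [e3]
    have hL : 0 ≤ L n 1 m := by
      unfold L G
      refine Finset.sum_nonneg fun j hj => Finset.sum_nonneg fun x hx => ?_
      rw [Finset.mem_range] at hj hx
      apply c_nonneg
      rw [abs_le]
      constructor <;> omega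
    have hge : (q + 1) ^ 2 ≤ k * (m + 2).choose 2 + (m + 3).choose 3 := by
      zify; linarith
    rw [Nat.cast_sub hge]
    push_cast
    linarith
  · have h0 := (L1 n q).2
    have e1 : (n : ℤ) / 2 + 1 = q + k + 1 := by omega
    have e2 : ((n : ℤ) + 1) / 2 = q + k + 1 := by omega
    rw [e1, e2, ← hq] at h0
    have hq' : (m : ℤ) = 2 * q + 1 := by exact_mod_cast hq
    have e3 : (m + 2) ^ 2 / 4 = (q + 1) * (q + 2) := by
      rw [hq, show (2 * q + 1 + 2) ^ 2 = 4 * ((q + 1) * (q + 2)) + 1 by ring]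
      omega
    have key : 12 * ((k : ℤ) * ((m + 2).choose 2 : ℤ) + ((m + 3).choose 3 : ℤ)) =
        12 * (L n 1 m + (q + 1) * (q + 2)) := by
      have : 12 * ((k : ℤ) * ((m + 2).choose 2 : ℤ) + ((m + 3).choose 3 : ℤ)) =
        6 * k * (2 * ((m + 2).choose 2 : ℤ)) + 2 * (6 * ((m + 3).choose 3 : ℤ)) := by ring
      rw [this, c2, c3, show (12:ℤ) * (L n 1 m + (q + 1) * (q + 2)) =
        2 * (6 * L n 1 m) + 12 * ((q + 1) * (q + 2)) by ring, h0, hq']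
      ring
    rw [e3]
    have hL : 0 ≤ L n 1 m := by
      unfold L G
      refine Finset.sum_nonneg fun j hj => Finset.sum_nonneg fun x hx => ?_
      rw [Finset.mem_range] at hj hx
      apply c_nonneg
      rw [abs_le]
      constructor <;> omega
    have hge : (q + 1) * (q + 2) ≤ k * (m + 2).choose 2 + (m + 3).choose 3 := by
      zify; linarith
    rw [Nat.cast_sub hge]
    push_cast
    linarith

/-! ### The case `m = 2`, `n = 2k` -/

/-- membership predicate of the special family -/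
def P2 (k : ℤ) (u : Pr) : Prop :=
  (u.a + u.b + u.x + u.y = 2 * k + 2 ∧ u.y = u.x + 2) ∨
  (u.a + u.b + u.x + u.y = 2 * k + 2 ∧ u.y = u.x + 1 ∧ u.a + 3 ≤ u.b) ∨
  (u.a + u.b + u.x + u.y = 2 * k + 2 ∧ u.x = 1 ∧ u.y = 1 ∧ u.a + 2 ≤ u.b) ∨
  (u.a + u.b + u.x + u.y = 2 * k + 2 ∧ u.x = u.y ∧ u.a + 4 ≤ u.b) ∨
  (u.a = k - 2 ∧ u.x = 2 ∧ u.b = k - 1 ∧ u.y = 2) ∨
  (u.a = k - 1 ∧ u.x = 1 ∧ u.b = k - 1 ∧ u.y = 2) ∨
  (u.a = k - 1 ∧ u.x = 2 ∧ u.b = k ∧ u.y = 2) ∨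
  (u.a = k ∧ u.x = 0 ∧ u.b = k + 1 ∧ u.y = 0) ∨
  (u.a = k + 1 ∧ u.x = 0 ∧ u.b = k + 2 ∧ u.y = 0) ∨
  (u.a = k + 1 ∧ u.x = 0 ∧ u.b = k + 1 ∧ u.y = 1)

noncomputable def S2 (k : ℤ) : Finset Pr :=
  (box (2 * k) 2).filter (fun u => u.a ≤ u.b ∧ u.x ≤ u.y ∧ P2 k u)

theorem mem_S2 {k : ℤ} {u : Pr} : u ∈ S2 k ↔
    0 ≤ u.a ∧ u.a ≤ u.b ∧ u.b ≤ 2 * k ∧ 0 ≤ u.x ∧ u.x ≤ u.y ∧ u.y ≤ 2 ∧ P2 k u := by
  unfold S2
  rw [Finset.mem_filter, mem_box]
  constructor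
  · rintro ⟨h1, h2, h3, h4⟩
    exact ⟨h1.1.1, h2, h1.2.2.1.2, h1.2.1.1, h3, h1.2.2.2.2, h4⟩
  · rintro ⟨h1, h2, h3, h4, h5, h6, h7⟩
    exact ⟨⟨⟨h1, by omega⟩, ⟨h4, by omega⟩, ⟨by omega, h3⟩, ⟨by omega, h6⟩⟩, h2, h5, h7⟩

theorem mk_S2 {k a x b y : ℤ} (h : 0 ≤ a ∧ a ≤ b ∧ b ≤ 2 * k ∧ 0 ≤ x ∧ x ≤ y ∧ y ≤ 2)
    (h' : (a + b + x + y = 2 * k + 2 ∧ y = x + 2) ∨
  (a + b + x + y = 2 * k + 2 ∧ y = x + 1 ∧ a + 3 ≤ b) ∨
  (a + b + x + y = 2 * k + 2 ∧ x = 1 ∧ y = 1 ∧ a + 2 ≤ b) ∨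
  (a + b + x + y = 2 * k + 2 ∧ x = y ∧ a + 4 ≤ b) ∨
  (a = k - 2 ∧ x = 2 ∧ b = k - 1 ∧ y = 2) ∨
  (a = k - 1 ∧ x = 1 ∧ b = k - 1 ∧ y = 2) ∨
  (a = k - 1 ∧ x = 2 ∧ b = k ∧ y = 2) ∨
  (a = k ∧ x = 0 ∧ b = k + 1 ∧ y = 0) ∨
  (a = k + 1 ∧ x = 0 ∧ b = k + 2 ∧ y = 0) ∨
  (a = k + 1 ∧ x = 0 ∧ b = k + 1 ∧ y = 1)) : (⟨a, x, b, y⟩ : Pr) ∈ S2 k := by
  rw [mem_S2]
  obtain ⟨h1, h2, h3, h4, h5, h6⟩ := h
  exact ⟨h1, h2, h3, h4, h5, h6, h'⟩

theorem S2_Ind {k : ℤ} (hk : 1 ≤ k) : Ind (S2 k) := by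
  intro u hu v hv h
  rw [mem_S2] at hu hv
  obtain ⟨a, x, b, y⟩ := u
  obtain ⟨a', x', b', y'⟩ := v
  unfold P2 at hu hv
  unfold Cf at h
  simp only at hu hv h
  obtain ⟨h1, h2, h3, h4, h5, h6, h7⟩ := hu
  obtain ⟨k1, k2, k3, k4, k5, k6, k7⟩ := hv
  obtain ⟨c1, c2, c3, c4, c5⟩ := h
  rw [Pr.mk.injEq]
  rcases h7 with h7 | h7 | h7 | h7 | h7 | h7 | h7 | h7 | h7 | h7 <;>
  rcases k7 with k7 | k7 | k7 | k7 | k7 | k7 | k7 | k7 | k7 | k7 <;> omega

theorem S2_Gr {k : ℤ} (hk : 1 ≤ k) : ∀ u ∈ S2 k, Gr (2 * k) 2 u := by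
  intro u hu
  rw [mem_S2] at hu
  unfold P2 at hu
  unfold Gr Pr.Ok
  omega

/-- index of an element -/
def f2' (k : ℤ) (u : Pr) : ℤ :=
  if u.x = 0 ∧ u.y = 2 then u.a
  else if u.x = 1 ∧ u.y = 1 then k + 1 + u.a
  else if u.x = 0 ∧ u.y = 1 then (if u.a = k + 1 then 3 * k else 2 * k + u.a)
  else if u.x = 1 ∧ u.y = 2 then 3 * k + 1 + u.a
  else if u.x = 0 ∧ u.y = 0 then
    (if u.a = k then 4 * k + 1 else if u.a = k + 1 then 4 * k + 2 else 4 * k + 1 + u.a)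
  else 5 * k + 1 + u.a

theorem S2_card (k : ℕ) (hk : 1 ≤ k) : 6 * k + 1 ≤ (S2 k).card := by
  refine le_card_of_surj (f2' k) _ ?_
  intro c hc0 hc1
  push_cast at hc1
  have hk' : (1:ℤ) ≤ k := by exact_mod_cast hk
  generalize (k : ℤ) = K at *
  by_cases h1 : c ≤ K
  · refine ⟨⟨c, 0, 2 * K - c, 2⟩, mk_S2 (by omega)
        (Or.inl ⟨by ring, by norm_num⟩), ?_⟩
    unfold f2'; simp
  by_cases h2 : c ≤ 2 * K
  · refine ⟨⟨c - K - 1, 1, 2 * K - (c - K - 1), 1⟩, mk_S2 (by omega)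
        (Or.inr (Or.inr (Or.inl ⟨by ring, rfl, rfl, by omega⟩))), ?_⟩
    unfold f2'; simp
  by_cases h3 : c ≤ 3 * K
  · by_cases h3' : c = 3 * K
    · refine ⟨⟨K + 1, 0, K + 1, 1⟩, mk_S2 (by omega)
        (Or.inr (Or.inr (Or.inr (Or.inr (Or.inr (Or.inr (Or.inr (Or.inr (Or.inr ⟨rfl, rfl, rfl, rfl⟩))))))))), ?_⟩
      unfold f2'; simp; omega
    · refine ⟨⟨c - 2 * K, 0, 2 * K + 1 - (c - 2 * K), 1⟩, mk_S2 (by omega)
        (Or.inr (Or.inl ⟨by ring, by norm_num, by omega⟩)), ?_⟩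
      unfold f2'; simp; omega
  by_cases h4 : c ≤ 4 * K
  · by_cases h4' : c = 4 * K
    · refine ⟨⟨K - 1, 1, K - 1, 2⟩, mk_S2 (by omega)
        (Or.inr (Or.inr (Or.inr (Or.inr (Or.inr (Or.inl ⟨rfl, rfl, rfl, rfl⟩)))))), ?_⟩
      unfold f2'; simp; omega
    · refine ⟨⟨c - 3 * K - 1, 1, 2 * K - 1 - (c - 3 * K - 1), 2⟩, mk_S2 (by omega)
        (Or.inr (Or.inl ⟨by ring, by norm_num, by omega⟩)), ?_⟩
      unfold f2'; simp
  by_cases h5 : c ≤ 5 * K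
  · by_cases h5' : c = 4 * K + 1
    · refine ⟨⟨K, 0, K + 1, 0⟩, mk_S2 (by omega)
        (Or.inr (Or.inr (Or.inr (Or.inr (Or.inr (Or.inr (Or.inr (Or.inl ⟨rfl, rfl, rfl, rfl⟩)))))))), ?_⟩
      unfold f2'; simp; omega
    by_cases h5'' : c = 4 * K + 2
    · refine ⟨⟨K + 1, 0, K + 2, 0⟩, mk_S2 (by omega)
        (Or.inr (Or.inr (Or.inr (Or.inr (Or.inr (Or.inr (Or.inr (Or.inr (Or.inl ⟨rfl, rfl, rfl, rfl⟩))))))))), ?_⟩
      unfold f2'; simp; omega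
    · refine ⟨⟨c - 4 * K - 1, 0, 2 * K + 2 - (c - 4 * K - 1), 0⟩,
        mk_S2 (by omega)
        (Or.inr (Or.inr (Or.inr (Or.inl ⟨by ring, rfl, by omega⟩)))), ?_⟩
      unfold f2'
      rw [if_neg (by simp), if_neg (by simp), if_neg (by simp), if_neg (by simp),
        if_pos (by simp), if_neg (by simp only; omega), if_neg (by simp only; omega)]
      simp only
      ring
  · by_cases h6 : c = 6 * K
    · refine ⟨⟨K - 1, 2, K, 2⟩, mk_S2 (by omega)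
        (Or.inr (Or.inr (Or.inr (Or.inr (Or.inr (Or.inr (Or.inl ⟨rfl, rfl, rfl, rfl⟩))))))), ?_⟩
      unfold f2'; simp; omega
    by_cases h6' : c = 6 * K - 1
    · refine ⟨⟨K - 2, 2, K - 1, 2⟩, mk_S2 (by omega)
        (Or.inr (Or.inr (Or.inr (Or.inr (Or.inl ⟨rfl, rfl, rfl, rfl⟩))))), ?_⟩
      unfold f2'; simp; omega
    · refine ⟨⟨c - 5 * K - 1, 2, 2 * K - 2 - (c - 5 * K - 1), 2⟩,
        mk_S2 (by omega)
        (Or.inr (Or.inr (Or.inr (Or.inl ⟨by ring, rfl, by omega⟩)))), ?_⟩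
      unfold f2'; simp

theorem t_lower : S_lower := by
  intro n m hm2 hmn
  by_cases h : (n + m) % 2 = 1
  · refine ⟨Lev n m (n + m - 0), Lev_Ind _ _ _, Lev_Gr (by omega), ?_⟩
    have h1 := L_le_card n m hmn 0 le_rfl (by norm_num)
    rw [← F_odd n m hmn h] at h1
    exact_mod_cast h1
  · by_cases h2 : m = 2
    · subst h2
      obtain ⟨k, hk⟩ : ∃ k, n = 2 * k := ⟨n / 2, by omega⟩
      have hk1 : 1 ≤ k := by omega
      have hk1' : (1:ℤ) ≤ k := by exact_mod_cast hk1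
      refine ⟨S2 k, S2_Ind hk1', ?_, ?_⟩
      · have := S2_Gr hk1'
        rw [hk]
        push_cast
        exact this
      · have := S2_card k hk1
        unfold F
        rw [if_neg h, if_pos rfl]
        have e : n / 2 = k := by omega
        rw [e]
        exact this
    · refine ⟨Lev n m (n + m - 1), Lev_Ind _ _ _, Lev_Gr (by omega), ?_⟩
      have h1 := L_le_card n m hmn 1 (by norm_num) le_rfl
      have h3 := (F_even n m hmn (by omega) h2).trans h1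
      exact_mod_cast h3

end Pool.Agent.K1H33.TSL
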